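import Pool.Agent.Helper28H.AOD.Sym
import Pool.Agent.W851.Had.Tower

/-!
# Amicable orthogonal designs of all weights in the orders `2 ^ t * q`
-/

set_option autoImplicit false
set_option linter.unusedSectionVars false

namespace Pool.Agent.Helper28H.AOD

open Matrix Finset
open scoped Kronecker
open Pool.Agent.Y342.SK hiding Qm QmT Qm_QmT Qm_sq
open Pool.Agent.N328.PH
open Pool.Agent.H108R3.Had (PUk)
open Pool.Agent.W851.Had (tow)

/-- there are amicable designs of order `m` and weight `w` -/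
def HasAOD (m w : ℕ) : Prop := ∃ P Q N : Matrix (Fin m) (Fin m) ℤ, IsAOD (w : ℤ) P Q N

theorem IsAOD.has {X : Type} [Fintype X] [DecidableEq X] {z : ℤ} {w : ℕ} {P Q N : Matrix X X ℤ}
    (h : IsAOD z P Q N) (hz : z = w) {m : ℕ} (hm : Fintype.card X = m) : HasAOD m w := by
  subst hz
  let e : Fin m ≃ X := (Fintype.equivFinOfCardEq hm).symm
  have hsm : ∀ z : ℤ, (z • (1 : Matrix X X ℤ)).submatrix e e = z • (1 : Matrix (Fin m) (Fin m) ℤ) := by
    intro z
    ext i j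
    rw [Matrix.submatrix_apply, Matrix.smul_apply, Matrix.smul_apply, Matrix.one_apply,
      Matrix.one_apply]
    by_cases hij : i = j
    · rw [if_pos hij, if_pos (congrArg e hij)]
    · rw [if_neg hij, if_neg (fun h => hij (e.injective h))]
  refine ⟨P.submatrix e e, Q.submatrix e e, N.submatrix e e, ?_, ?_, ?_, fun x => h.P0 _,
    fun x => h.Q0 _, fun x y => h.Ns _ _, fun x y hxy => h.PQs _ _ fun h' => hxy (e.injective h'),
    ?_, ?_, ?_, ?_, ?_, ?_⟩
  · rw [transpose_submatrix, h.PT]; rfl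
  · rw [transpose_submatrix, h.QT]; rfl
  · rw [transpose_submatrix, h.NT]
  · rw [submatrix_mul_equiv, h.PP, hsm]
  · rw [submatrix_mul_equiv, h.QQ, hsm, Fintype.card_fin, hm]
  · rw [submatrix_mul_equiv, h.NN, hsm, Fintype.card_fin, hm]
  · rw [submatrix_mul_equiv, submatrix_mul_equiv]
    exact congrArg (fun M : Matrix X X ℤ => M.submatrix e e) h.PQ
  · rw [submatrix_mul_equiv, submatrix_mul_equiv]
    exact congrArg (fun M : Matrix X X ℤ => M.submatrix e e) h.NP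
  · rw [submatrix_mul_equiv, submatrix_mul_equiv]
    exact congrArg (fun M : Matrix X X ℤ => M.submatrix e e) h.NQ

section double

variable {m : ℕ} {P Q N : Matrix (Fin m) (Fin m) ℤ} {w : ℤ}

/-- doubling, the new block added to the first matrix -/
theorem IsAOD.dbl (h : IsAOD w P Q N) :
    IsAOD (w + m) ((1 : Matrix (Fin 2) (Fin 2) ℤ) ⊗ₖ P + ep ⊗ₖ N)
      ((1 : Matrix (Fin 2) (Fin 2) ℤ) ⊗ₖ Q) (hh ⊗ₖ N) := by
  have hcard : Fintype.card (Fin 2 × Fin m) = 2 * m := by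
    rw [Fintype.card_prod, Fintype.card_fin, Fintype.card_fin]
  have hP0 := h.P0
  have hQ0 := h.Q0
  have hPP := h.PP
  have hQQ := h.QQ
  have hNN := h.NN
  rw [Fintype.card_fin] at hQQ hNN
  -- the products
  have e1 : ∀ z : ℤ, (1 : Matrix (Fin 2) (Fin 2) ℤ) ⊗ₖ (z • (1 : Matrix (Fin m) (Fin m) ℤ)) =
      z • (1 : Matrix (Fin 2 × Fin m) (Fin 2 × Fin m) ℤ) := by
    intro z; rw [kronecker_smul, one_kronecker_one]
  have e2 : (-1 : Matrix (Fin 2) (Fin 2) ℤ) = (-1 : ℤ) • 1 := by simp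
  have rPN : Rel (-1) ((1 : Matrix (Fin 2) (Fin 2) ℤ) ⊗ₖ P) (ep ⊗ₖ N) := by
    have : Rel (-1) P N := by
      unfold Pool.Agent.Y342.SK.Rel
      rw [neg_one_smul]
      exact eq_neg_of_add_eq_zero_right h.NP
    simpa using (Rel.one_left ep).kron this
  have rPQ : Rel (-1) ((1 : Matrix (Fin 2) (Fin 2) ℤ) ⊗ₖ P) ((1 : Matrix (Fin 2) (Fin 2) ℤ) ⊗ₖ Q) := by
    have : Rel (-1) P Q := by
      unfold Pool.Agent.Y342.SK.Rel
      rw [neg_one_smul]
      exact eq_neg_of_add_eq_zero_left h.PQ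
    simpa using (Rel.one_left (1 : Matrix (Fin 2) (Fin 2) ℤ)).kron this
  have rNQ : Rel (-1) N Q := by
    unfold Pool.Agent.Y342.SK.Rel
    rw [neg_one_smul]
    exact eq_neg_of_add_eq_zero_left h.NQ
  have rNQ' : Rel (-1) (ep ⊗ₖ N) ((1 : Matrix (Fin 2) (Fin 2) ℤ) ⊗ₖ Q) := by
    simpa using (Rel.one_right ep).kron rNQ
  have rNP : Rel (-1) N P := by
    unfold Pool.Agent.Y342.SK.Rel
    rw [neg_one_smul]
    exact eq_neg_of_add_eq_zero_left h.NP
  have rhP : Rel (-1) (hh ⊗ₖ N) ((1 : Matrix (Fin 2) (Fin 2) ℤ) ⊗ₖ P) := by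
    simpa using (Rel.one_right hh).kron rNP
  have rhQ : Rel (-1) (hh ⊗ₖ N) ((1 : Matrix (Fin 2) (Fin 2) ℤ) ⊗ₖ Q) := by
    simpa using (Rel.one_right hh).kron rNQ
  have rhN : Rel (-1) (hh ⊗ₖ N) (ep ⊗ₖ N) := by
    simpa using (ep_hh.symm (by norm_num)).kron (Rel.refl N)
  have ofRel : ∀ {X Y : Matrix (Fin 2 × Fin m) (Fin 2 × Fin m) ℤ}, Rel (-1) X Y →
      X * Y + Y * X = 0 := by
    intro X Y h
    unfold Pool.Agent.Y342.SK.Rel at h
    rw [h, neg_one_smul, neg_add_cancel]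
  refine ⟨?_, ?_, ?_, ?_, ?_, ?_, ?_, ?_, ?_, ?_, ?_, ?_, ?_⟩
  · rw [transpose_add, ← kroneckerMap_transpose, ← kroneckerMap_transpose, transpose_one, h.PT, h.NT,
      epT]
    ext i j
    simp only [Matrix.add_apply, Matrix.neg_apply, kroneckerMap_apply]
    ring
  · rw [← kroneckerMap_transpose, transpose_one, h.QT]
    ext i j
    simp only [Matrix.neg_apply, kroneckerMap_apply]
    ring
  · rw [← kroneckerMap_transpose, h.NT, hhT]
  · rintro ⟨i, x⟩
    simp only [Matrix.add_apply, kroneckerMap_apply]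
    rw [hP0, ep_self]; ring
  · rintro ⟨i, x⟩
    simp only [kroneckerMap_apply]
    rw [hQ0]; ring
  · rintro ⟨i, x⟩ ⟨j, y⟩
    simp only [kroneckerMap_apply]
    exact (hh_sg _ _).mul (h.Ns _ _)
  · rintro ⟨i, x⟩ ⟨j, y⟩ hne
    simp only [Matrix.add_apply, kroneckerMap_apply]
    by_cases hij : i = j
    · subst hij
      rw [one_apply_eq, one_mul, one_mul, ep_self, zero_mul, add_zero]
      exact h.PQs x y fun h' => hne (by rw [h'])
    · rw [one_apply_ne hij, zero_mul, zero_mul, zero_add]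
      exact Or.inl ⟨(ep_ne _ _ hij).mul (h.Ns _ _), rfl⟩
  · rw [sq_add rPN, ← mul_kronecker_mul, ← mul_kronecker_mul, hPP, hNN, ep_ep, one_mul, e1, e2,
      smul_one_kron, ← add_smul]
    congr 1
    ring
  · rw [← mul_kronecker_mul, hQQ, one_mul, e1, hcard]
    congr 1
    push_cast
    ring
  · rw [← mul_kronecker_mul, hNN, hh_hh, smul_one_kron, hcard]
    congr 1
  · exact ofRel (rPQ.add_left rNQ')
  · exact ofRel (rhP.add_right rhN)
  · exact ofRel rhQ

end double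

/-- all weights -/
def AllAOD (m : ℕ) : Prop := ∀ w < m, HasAOD m w

theorem HasAOD.swap {m w : ℕ} (hw : w < m) (h : HasAOD m w) : HasAOD m (m - 1 - w) := by
  obtain ⟨P, Q, N, h⟩ := h
  refine ⟨Q, P, N, ?_⟩
  have h1 := h.swap
  rw [Fintype.card_fin] at h1
  have : (m : ℤ) - 1 - w = ((m - 1 - w : ℕ) : ℤ) := by omega
  rwa [this] at h1

theorem AllAOD.double {m : ℕ} (h : AllAOD m) : AllAOD (2 * m) := by
  -- weights at least `m`
  have h1 : ∀ w, m ≤ w → w < 2 * m → HasAOD (2 * m) w := by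
    intro w hw1 hw2
    obtain ⟨P, Q, N, h⟩ := h (w - m) (by omega)
    refine h.dbl.has ?_ (by rw [Fintype.card_prod, Fintype.card_fin, Fintype.card_fin])
    omega
  intro w hw
  by_cases hwm : m ≤ w
  · exact h1 w hwm hw
  · have h2 := (h1 (2 * m - 1 - w) (by omega) (by omega)).swap (by omega)
    have e : 2 * m - 1 - (2 * m - 1 - w) = w := by omega
    rwa [e] at h2

theorem AllAOD.pow {m : ℕ} (h : AllAOD m) : ∀ t : ℕ, AllAOD (2 ^ t * m)
  | 0 => by simpa using h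
  | t + 1 => by
    have := (h.pow t).double
    rwa [← mul_assoc, ← pow_succ'] at this

/-- all weights, from para-unitary matrices of all lengths up to `S` -/
theorem all_of_PUk {k S : ℕ} (hPU : ∀ l ≤ S, PUk k l) :
    AllAOD (2 ^ (5 * 2 ^ (k + 2) - 1) * (2 * S + 1)) := by
  obtain ⟨ι, κ, i1, i2, i3, i4, c, hι, hκ, hG⟩ := exists_arms (k + 2)
  obtain ⟨q, hq⟩ : ∃ q, q = 2 * S + 1 := ⟨_, rfl⟩
  have : NeZero q := ⟨by omega⟩
  obtain ⟨J, hJ⟩ : ∃ J, J = 2 ^ (5 * 2 ^ (k + 2) - 1) := ⟨_, rfl⟩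
  have hJ0 : 0 < J := by rw [hJ]; positivity
  rw [← hJ] at hι ⊢
  have hcard : Fintype.card (ι × ZMod q) = J * (2 * S + 1) := by
    rw [Fintype.card_prod, ZMod.card, hι, hq]
  -- small weights
  have h1 : ∀ w, w / J ≤ S → HasAOD (J * (2 * S + 1)) w := by
    intro w hw
    obtain ⟨G, P, Q, hGPQ⟩ := hG (w % J) (by rw [hι]; exact Nat.mod_lt _ hJ0)
    have hcJ : c * 2 ^ (k + 1) = (J : ℤ) := by
      have := G.hc
      rw [hκ, hι] at this
      push_cast at this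
      rw [pow_succ] at this
      linarith
    obtain ⟨F, s, hF, hs0, hs1, -⟩ := exists_fam (r := 1) hq hκ hPU 0 0 (w / J)
      (by simpa using hw) (by simp)
    have hs : c * (s none + s (some 0)) = (Fintype.card ι : ℤ) * (q - 1) := by
      rw [hs0, hs1, hι, hq]
      push_cast
      linear_combination (2 * (S : ℤ)) * hcJ
    refine (isAOD_of hGPQ hF hs).has ?_ hcard
    rw [hs0]
    have e := Nat.div_add_mod w J
    have e' : ((w : ℕ) : ℤ) = J * (w / J : ℕ) + (w % J : ℕ) := by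
      rw [← Nat.cast_mul, ← Nat.cast_add, e]
    rw [e']
    linear_combination ((w / J : ℕ) : ℤ) * hcJ
  intro w hw
  by_cases hwS : w / J ≤ S
  · exact h1 w hwS
  · have h2 : (J * (2 * S + 1) - 1 - w) / J ≤ S := by
      have h3 : S + 1 ≤ w / J := by omega
      have h4 : (S + 1) * J ≤ w := (Nat.le_div_iff_mul_le hJ0).1 h3
      rw [← Nat.lt_succ_iff, Nat.div_lt_iff_lt_mul hJ0]
      have h5 : J * (2 * S + 1) = (S + 1) * J + S * J := by ring
      have h6 : (S + 1) * J = S * J + J := by ring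
      rw [Nat.succ_eq_add_one]
      omega
    have h3 := (h1 _ h2).swap (by omega)
    have e : J * (2 * S + 1) - 1 - (J * (2 * S + 1) - 1 - w) = w := by omega
    rwa [e] at h3

/-- the general bound -/
theorem main_aod : ∃ C : ℕ, 2 ≤ C ∧ ∀ n q t : ℕ, 0 < q → q ≤ tow n → 2 ^ C ^ (n + 1) ≤ t →
    AllAOD (2 ^ t * q) := by
  obtain ⟨C, hC, h⟩ := Pool.Agent.W851.Had.main_pu
  refine ⟨C + 5, by omega, fun n q t hq hqn ht => ?_⟩
  obtain ⟨a, m, hm, rfl⟩ := Nat.exists_eq_two_pow_mul_odd (n := q) hq.ne'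
  obtain ⟨S, rfl⟩ := hm
  have h1 : ∀ l ≤ S, PUk (C ^ (n + 1)) l := by
    intro l hl
    refine h n l _ ?_ le_rfl
    refine le_trans ?_ hqn
    have : 1 ≤ 2 ^ a := Nat.one_le_two_pow
    nlinarith
  have h2 : C ^ (n + 1) + 5 ≤ (C + 5) ^ (n + 1) := by
    have h3 : C ^ (n + 1) + 5 ^ (n + 1) ≤ (C + 5) ^ (n + 1) := by
      have := pow_add_pow_le (by omega : 0 ≤ C) (by omega : 0 ≤ 5) (n := n + 1) (by omega)
      exact this
    have h4 : 5 ≤ 5 ^ (n + 1) := by
      calc 5 = 5 ^ 1 := by norm_num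
        _ ≤ 5 ^ (n + 1) := Nat.pow_le_pow_right (by norm_num) (by omega)
    omega
  have h5 : 5 * 2 ^ (C ^ (n + 1) + 2) - 1 ≤ t := by
    have h6 : 2 ^ (C ^ (n + 1) + 5) ≤ 2 ^ (C + 5) ^ (n + 1) := Nat.pow_le_pow_right (by norm_num) h2
    have h7 : 2 ^ (C ^ (n + 1) + 5) ≤ t := h6.trans ht
    have h8 : 2 ^ (C ^ (n + 1) + 5) = 8 * 2 ^ (C ^ (n + 1) + 2) := by
      rw [pow_add, pow_add]; ring
    omega
  have h8 := (all_of_PUk h1).pow (t + a - (5 * 2 ^ (C ^ (n + 1) + 2) - 1))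
  rw [← mul_assoc, ← pow_add, Nat.sub_add_cancel (by omega)] at h8
  rwa [pow_add, mul_assoc] at h8

end Pool.Agent.Helper28H.AOD
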