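import Pool.Agent.N328.PH.Seq
import Pool.Agent.N328.PH.Base

/-!
# The symmetric Hadamard matrix anticommuting with the skew matrices
-/

set_option autoImplicit false
set_option linter.unusedSectionVars false

namespace Pool.Agent.Helper28H.AOD

open Matrix Finset
open scoped Kronecker
open Pool.Agent.Y342.SK hiding Qm QmT Qm_QmT Qm_sq
open Pool.Agent.N328.PH

/-- two disjoint skew matrices `P`, `Q` of weights `w` and `n - 1 - w` covering all positions off the
diagonal and a symmetric Hadamard matrix `N`, all three anticommuting -/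
structure IsAOD {X : Type} [Fintype X] [DecidableEq X] (w : ℤ) (P Q N : Matrix X X ℤ) : Prop where
  PT : Pᵀ = -P
  QT : Qᵀ = -Q
  NT : Nᵀ = N
  P0 : ∀ x, P x x = 0
  Q0 : ∀ x, Q x x = 0
  Ns : ∀ x y, Sg (N x y)
  PQs : ∀ x y, x ≠ y → (Sg (P x y) ∧ Q x y = 0) ∨ (P x y = 0 ∧ Sg (Q x y))
  PP : P * P = (-w) • (1 : Matrix X X ℤ)
  QQ : Q * Q = (-((Fintype.card X : ℤ) - 1 - w)) • (1 : Matrix X X ℤ)
  NN : N * N = (Fintype.card X : ℤ) • (1 : Matrix X X ℤ)
  PQ : P * Q + Q * P = 0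
  NP : N * P + P * N = 0
  NQ : N * Q + Q * N = 0

theorem IsAOD.swap {X : Type} [Fintype X] [DecidableEq X] {w : ℤ} {P Q N : Matrix X X ℤ}
    (h : IsAOD w P Q N) : IsAOD ((Fintype.card X : ℤ) - 1 - w) Q P N where
  PT := h.QT
  QT := h.PT
  NT := h.NT
  P0 := h.Q0
  Q0 := h.P0
  Ns := h.Ns
  PQs := fun x y hxy => by
    rcases h.PQs x y hxy with ⟨h1, h2⟩ | ⟨h1, h2⟩
    · exact Or.inr ⟨h2, h1⟩
    · exact Or.inl ⟨h2, h1⟩
  PP := h.QQ
  QQ := by
    rw [h.PP]
    congr 1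
    ring
  NN := h.NN
  PQ := by rw [add_comm]; exact h.PQ
  NP := h.NQ
  NQ := h.NP

section sym

variable {ι κ : Type} [Fintype ι] [DecidableEq ι] [Fintype κ] [DecidableEq κ] {c : ℤ}
variable (G : Arms ι κ c) {q : ℕ} [NeZero q] (C C' : κ → Matrix (ZMod q) (ZMod q) ℤ)

/-- the symmetric part -/
def Vm : Matrix (ι × ZMod q) (ι × ZMod q) ℤ := Qm G C + (Qm G C)ᵀ

theorem VmT : (Vm G C)ᵀ = Vm G C := by
  unfold Vm
  rw [transpose_add, transpose_transpose, add_comm]

theorem one_Q {X : Matrix ι ι ℤ} (hX : ∀ a, Rel (-1) X (G.A a)) :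
    (X ⊗ₖ (1 : Matrix (ZMod q) (ZMod q) ℤ)) * Qm G C +
      Qm G C * (X ⊗ₖ (1 : Matrix (ZMod q) (ZMod q) ℤ)) = 0 := by
  unfold Qm
  rw [Finset.mul_sum, Finset.sum_mul, ← Finset.sum_add_distrib]
  refine Finset.sum_eq_zero fun a _ => ?_
  have h := hX a
  unfold Pool.Agent.Y342.SK.Rel at h
  rw [← mul_kronecker_mul, ← mul_kronecker_mul, h, one_mul, mul_one, smul_kronecker, neg_one_smul,
    neg_add_cancel]

theorem one_QT {X : Matrix ι ι ℤ} (hX : ∀ a, Rel (-1) X (G.A a)) (hT : Xᵀ = X ∨ Xᵀ = -X) :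
    (X ⊗ₖ (1 : Matrix (ZMod q) (ZMod q) ℤ)) * (Qm G C)ᵀ +
      (Qm G C)ᵀ * (X ⊗ₖ (1 : Matrix (ZMod q) (ZMod q) ℤ)) = 0 := by
  have h := congrArg Matrix.transpose (one_Q G C hX)
  rcases hT with hT | hT
  · have e : (X ⊗ₖ (1 : Matrix (ZMod q) (ZMod q) ℤ))ᵀ = X ⊗ₖ (1 : Matrix (ZMod q) (ZMod q) ℤ) := by
      rw [← kroneckerMap_transpose, transpose_one, hT]
    rw [transpose_add, transpose_mul, transpose_mul, e, transpose_zero] at h
    rw [← h]
    abel
  · have e : (X ⊗ₖ (1 : Matrix (ZMod q) (ZMod q) ℤ))ᵀ = -(X ⊗ₖ (1 : Matrix (ZMod q) (ZMod q) ℤ)) := by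
      rw [← kroneckerMap_transpose, transpose_one, hT]
      ext i j; simp [kroneckerMap_apply]
    rw [transpose_add, transpose_mul, transpose_mul, e, mul_neg, neg_mul, transpose_zero] at h
    rw [← neg_eq_zero, ← h]
    abel

theorem one_Vm {X : Matrix ι ι ℤ} (hX : ∀ a, Rel (-1) X (G.A a)) (hT : Xᵀ = X ∨ Xᵀ = -X) :
    (X ⊗ₖ (1 : Matrix (ZMod q) (ZMod q) ℤ)) * Vm G C +
      Vm G C * (X ⊗ₖ (1 : Matrix (ZMod q) (ZMod q) ℤ)) = 0 := by
  have h1 := one_Q G C hX
  have h2 := one_QT G C hX hT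
  unfold Vm
  rw [mul_add, add_mul]
  have e : ∀ a b c d : Matrix (ι × ZMod q) (ι × ZMod q) ℤ, a + b + (c + d) = (a + c) + (b + d) := by
    intro a b c d; abel
  rw [e, h1, h2, add_zero]

theorem one_Wm' {X : Matrix ι ι ℤ} (hX : ∀ a, Rel (-1) X (G.A a)) (hT : Xᵀ = X ∨ Xᵀ = -X) :
    (X ⊗ₖ (1 : Matrix (ZMod q) (ZMod q) ℤ)) * Wm G C +
      Wm G C * (X ⊗ₖ (1 : Matrix (ZMod q) (ZMod q) ℤ)) = 0 := by
  have h1 := one_Q G C hX
  have h2 := one_QT G C hX hT
  unfold Wm
  rw [mul_sub, sub_mul]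
  have e : ∀ a b c d : Matrix (ι × ZMod q) (ι × ZMod q) ℤ, a - b + (c - d) = (a + c) - (b + d) := by
    intro a b c d; abel
  rw [e, h1, h2, sub_zero]

theorem QTQT (hC : ∀ a b, C a * C' b = C' b * C a) :
    (Qm G C)ᵀ * (Qm G C')ᵀ + (Qm G C')ᵀ * (Qm G C)ᵀ = 0 := by
  rw [← transpose_mul, ← transpose_mul, ← transpose_add, add_comm, Qm_Qm G C C' hC, transpose_zero]

theorem sumT {s : ℤ} (hs : ∑ a, C a * (C' a)ᵀ = s • (1 : Matrix (ZMod q) (ZMod q) ℤ)) :
    ∑ a, C' a * (C a)ᵀ = s • (1 : Matrix (ZMod q) (ZMod q) ℤ) := by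
  have h := congrArg Matrix.transpose hs
  rw [transpose_sum, transpose_smul, transpose_one] at h
  rw [← h]
  exact Finset.sum_congr rfl fun a _ => by rw [transpose_mul, transpose_transpose]

theorem Vm_Vm (hC : ∀ a b, C a * C' b = C' b * C a) (hC' : ∀ a b, C a * (C' b)ᵀ = (C' b)ᵀ * C a)
    (hC'' : ∀ a b, C' a * (C b)ᵀ = (C b)ᵀ * C' a) {s : ℤ}
    (hs : ∑ a, C a * (C' a)ᵀ = s • (1 : Matrix (ZMod q) (ZMod q) ℤ)) :
    Vm G C * Vm G C' + Vm G C' * Vm G C =
      (2 * (c * s)) • (1 : Matrix (ι × ZMod q) (ι × ZMod q) ℤ) := by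
  have h1 := Qm_Qm G C C' hC
  have h2 := Qm_QmT G C C' hC' hs
  have h3 := Qm_QmT G C' C hC'' (sumT C C' hs)
  have h4 := QTQT G C C' hC
  have h5 : Vm G C * Vm G C' + Vm G C' * Vm G C = (Qm G C * Qm G C' + Qm G C' * Qm G C) +
      ((Qm G C)ᵀ * (Qm G C')ᵀ + (Qm G C')ᵀ * (Qm G C)ᵀ) +
      (Qm G C * (Qm G C')ᵀ + (Qm G C')ᵀ * Qm G C) + (Qm G C' * (Qm G C)ᵀ + (Qm G C)ᵀ * Qm G C') := by
    unfold Vm
    rw [add_mul, mul_add, mul_add, add_mul, mul_add, mul_add]
    abel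
  rw [h5, h1, h4, h2, h3, add_zero, zero_add, ← add_smul]
  congr 1
  ring

theorem Vm_sq (hC : ∀ a b, C a * C b = C b * C a) (hC' : ∀ a b, C a * (C b)ᵀ = (C b)ᵀ * C a) {s : ℤ}
    (hs : ∑ a, C a * (C a)ᵀ = s • (1 : Matrix (ZMod q) (ZMod q) ℤ)) :
    Vm G C * Vm G C = (c * s) • (1 : Matrix (ι × ZMod q) (ι × ZMod q) ℤ) := by
  have h := Vm_Vm G C C hC hC' hC' hs
  ext i j
  have h1 := congrFun (congrFun h i) j
  rw [Matrix.add_apply, Matrix.smul_apply, smul_eq_mul] at h1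
  rw [Matrix.smul_apply, smul_eq_mul]
  linarith

theorem Vm_Wm (hC : ∀ a b, C a * C' b = C' b * C a) (hC' : ∀ a b, C a * (C' b)ᵀ = (C' b)ᵀ * C a)
    (hC'' : ∀ a b, C' a * (C b)ᵀ = (C b)ᵀ * C' a) {s : ℤ}
    (hs : ∑ a, C a * (C' a)ᵀ = s • (1 : Matrix (ZMod q) (ZMod q) ℤ)) :
    Vm G C * Wm G C' + Wm G C' * Vm G C = 0 := by
  have h1 := Qm_Qm G C C' hC
  have h2 := Qm_QmT G C C' hC' hs
  have h3 := Qm_QmT G C' C hC'' (sumT C C' hs)
  have h4 := QTQT G C C' hC
  have h5 : Vm G C * Wm G C' + Wm G C' * Vm G C = (Qm G C * Qm G C' + Qm G C' * Qm G C) -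
      ((Qm G C)ᵀ * (Qm G C')ᵀ + (Qm G C')ᵀ * (Qm G C)ᵀ) -
      (Qm G C * (Qm G C')ᵀ + (Qm G C')ᵀ * Qm G C) + (Qm G C' * (Qm G C)ᵀ + (Qm G C)ᵀ * Qm G C') := by
    unfold Vm Wm
    rw [add_mul, mul_sub, mul_sub, sub_mul, mul_add, mul_add]
    abel
  rw [h5, h1, h4, h2, h3, sub_zero, zero_sub, neg_add_cancel]

end sym

section main

variable {ι κ : Type} [Fintype ι] [DecidableEq ι] [Fintype κ] [DecidableEq κ] {c : ℤ}
variable {G : Arms ι κ c} {P Q : Matrix ι ι ℤ} {d : ℕ} {S q : ℕ} [NeZero q]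
  {F : Option (Fin 1) → κ → ZMod q → ℤ} {s : Option (Fin 1) → ℤ}

/-- the symmetric Hadamard matrix -/
def Nx (G : Arms ι κ c) (F : Option (Fin 1) → κ → ZMod q → ℤ) :
    Matrix (ι × ZMod q) (ι × ZMod q) ℤ :=
  G.E ⊗ₖ (1 : Matrix (ZMod q) (ZMod q) ℤ) +
    (Vm G (fun a => circulant (F none a)) + Vm G (fun a => circulant (F (some 0) a)))

theorem NxT : (Nx (q := q) G F)ᵀ = Nx G F := by
  unfold Nx
  rw [transpose_add, transpose_add, VmT, VmT, ← kroneckerMap_transpose, transpose_one, G.ET]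

theorem Nx_sq (hF : Fam κ S q 1 F s) : Nx G F * Nx G F =
    ((Fintype.card ι : ℤ) + c * (s none + s (some 0))) • (1 : Matrix (ι × ZMod q) _ ℤ) := by
  have h1 := one_Vm G (fun a => circulant (F none a)) (fun a => G.EA a) (Or.inl G.ET)
  have h2 := one_Vm G (fun a => circulant (F (some 0) a)) (fun a => G.EA a) (Or.inl G.ET)
  have h3 := Vm_sq G (fun a => circulant (F none a)) (fun a b => circ_comm _ _)
    (fun a b => circ_commT _ _) (hF.auto none)
  have h4 := Vm_sq G (fun a => circulant (F (some 0) a)) (fun a b => circ_comm _ _)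
    (fun a b => circ_commT _ _) (hF.auto (some 0))
  have h5 := Vm_Vm G (fun a => circulant (F none a)) (fun a => circulant (F (some 0) a))
    (fun _ _ => circ_comm _ _) (fun _ _ => circ_commT _ _) (fun _ _ => circ_commT _ _) (s := 0)
    (by rw [hF.cross 0, zero_smul])
  rw [mul_zero, mul_zero, zero_smul] at h5
  have h6 : (G.E ⊗ₖ (1 : Matrix (ZMod q) (ZMod q) ℤ)) * (G.E ⊗ₖ 1) =
      (Fintype.card ι : ℤ) • (1 : Matrix (ι × ZMod q) _ ℤ) := by
    rw [← mul_kronecker_mul, G.EE, one_mul, smul_kronecker, one_kronecker_one]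
  have e : ∀ x y z : Matrix (ι × ZMod q) (ι × ZMod q) ℤ, (x + (y + z)) * (x + (y + z)) =
      x * x + y * y + z * z + (x * y + y * x) + (x * z + z * x) + (y * z + z * y) := by
    intro x y z; noncomm_ring
  unfold Nx
  rw [e, h1, h2, h3, h4, h5, h6, add_zero, add_zero, add_zero, ← add_smul, ← add_smul]
  congr 1
  ring

theorem Nx_Mx (h : IsPair G P Q d) (hF : Fam κ S q 1 F s) (t : Option (Fin 1)) :
    Nx G F * Mx G P Q F t + Mx G P Q F t * Nx G F = 0 := by
  have hE : ∀ a, Rel (-1) G.E (G.A a) := fun a => G.EA a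
  have hX := X0A (r := 1) h t
  have hXT := X0T (r := 1) h t
  have h1 := one_Wm' G (fun a => circulant (F t a)) hE (Or.inl G.ET)
  have h2 := one_Vm G (fun a => circulant (F none a)) hX (Or.inr hXT)
  have h3 := one_Vm G (fun a => circulant (F (some 0) a)) hX (Or.inr hXT)
  have hc0 : ∑ a, circulant (F (some 0) a) * (circulant (F none a))ᵀ =
      (0 : ℤ) • (1 : Matrix (ZMod q) (ZMod q) ℤ) :=
    sumT (fun a => circulant (F none a)) (fun a => circulant (F (some 0) a))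
      (by rw [hF.cross 0, zero_smul])
  have hc : ∃ z : ℤ, ∑ a, circulant (F none a) * (circulant (F t a))ᵀ =
      z • (1 : Matrix (ZMod q) (ZMod q) ℤ) := by
    rcases t with _ | b
    · exact ⟨_, hF.auto none⟩
    · exact ⟨0, by rw [hF.cross b, zero_smul]⟩
  have hc' : ∃ z : ℤ, ∑ a, circulant (F (some 0) a) * (circulant (F t a))ᵀ =
      z • (1 : Matrix (ZMod q) (ZMod q) ℤ) := by
    rcases t with _ | b
    · exact ⟨0, hc0⟩
    · have hb : b = 0 := Subsingleton.elim _ _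
      subst hb
      exact ⟨_, hF.auto (some 0)⟩
  obtain ⟨z, hz⟩ := hc
  obtain ⟨z', hz'⟩ := hc'
  have h4 := Vm_Wm G (fun a => circulant (F none a)) (fun a => circulant (F t a))
    (fun _ _ => circ_comm _ _) (fun _ _ => circ_commT _ _) (fun _ _ => circ_commT _ _) hz
  have h5 := Vm_Wm G (fun a => circulant (F (some 0) a)) (fun a => circulant (F t a))
    (fun _ _ => circ_comm _ _) (fun _ _ => circ_commT _ _) (fun _ _ => circ_commT _ _) hz'
  have h6 : (G.E ⊗ₖ (1 : Matrix (ZMod q) (ZMod q) ℤ)) * (X0 1 P Q t ⊗ₖ 1) +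
      (X0 1 P Q t ⊗ₖ (1 : Matrix (ZMod q) (ZMod q) ℤ)) * (G.E ⊗ₖ 1) = 0 := by
    rw [← mul_kronecker_mul, ← mul_kronecker_mul, ← add_kronecker]
    have e : G.E * X0 1 P Q t + X0 1 P Q t * G.E = 0 := by
      rcases t with _ | b
      · have := h.hP.XE
        unfold Pool.Agent.Y342.SK.Rel at this
        change G.E * P + P * G.E = 0
        rw [this, neg_one_smul, add_neg_cancel]
      · have hb : b = 0 := Subsingleton.elim _ _
        subst hb
        have := h.hQ.XE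
        unfold Pool.Agent.Y342.SK.Rel at this
        change G.E * (if (0 : Fin 1) = 0 then Q else 0) + (if (0 : Fin 1) = 0 then Q else 0) * G.E = 0
        rw [if_pos rfl, this, neg_one_smul, add_neg_cancel]
    rw [e, zero_kronecker]
  have e : ∀ x y z a b : Matrix (ι × ZMod q) (ι × ZMod q) ℤ,
      (x + (y + z)) * (a + b) + (a + b) * (x + (y + z)) =
      (x * a + a * x) + (x * b + b * x) + (a * y + y * a) + (a * z + z * a) + (y * b + b * y) +
        (z * b + b * z) := by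
    intro x y z a b; noncomm_ring
  unfold Nx Mx
  rw [e, h1, h2, h3, h4, h5, h6]
  simp

theorem Nx_apply (x y : ι) (i j : ZMod q) : Nx G F (x, i) (y, j) =
    (if i = j then G.E x y else 0) +
      (((∑ a, G.A a x y * F none a (i - j)) + ∑ a, G.A a y x * F none a (j - i)) +
      ((∑ a, G.A a x y * F (some 0) a (i - j)) + ∑ a, G.A a y x * F (some 0) a (j - i))) := by
  simp only [Nx, Vm, Qm, Matrix.add_apply, transpose_apply, Matrix.sum_apply,
    kroneckerMap_apply, Matrix.one_apply, mul_ite, mul_one, mul_zero]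
  rfl

theorem Nx_sg (hF : Fam κ S q 1 F s) (x y : ι × ZMod q) : Sg (Nx G F x y) := by
  obtain ⟨x, i⟩ := x
  obtain ⟨y, j⟩ := y
  rw [Nx_apply]
  have h0 : ∀ t a, F t a 0 = 0 := fun t a => hF.zero t a 0 (Or.inl ZMod.val_zero)
  have hq := hF.hq
  -- a sum of the two types of a covered position is a sign
  have hcov : ∀ a (δ : ZMod q), 1 ≤ δ.val → δ.val ≤ S → Sg (F none a δ + F (some 0) a δ) := by
    intro a δ h1 h2
    obtain ⟨t, ht, ht'⟩ := hF.cover a δ h1 h2
    rcases t with _ | b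
    · rw [ht' (some 0) (by simp), add_zero]; exact ht
    · have hb : b = 0 := Subsingleton.elim _ _
      subst hb
      rw [ht' none (by simp), zero_add]; exact ht
  by_cases hij : i = j
  · subst hij
    simp only [if_true, sub_self, h0, mul_zero, Finset.sum_const_zero, add_zero]
    exact G.Es x y
  · simp only [if_neg hij, zero_add]
    have hd : (i - j).val ≠ 0 := by
      rw [Ne, ZMod.val_eq_zero, sub_eq_zero]
      exact hij
    have hlt := ZMod.val_lt (i - j)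
    have hneg : (j - i).val = q - (i - j).val := by
      have : j - i = -(i - j) := by ring
      rw [this, ZMod.neg_val, if_neg (sub_ne_zero.2 hij)]
    by_cases hle : (i - j).val ≤ S
    · have h1 : ∀ t a, F t a (j - i) = 0 := fun t a => hF.zero t a _ (Or.inr (by omega))
      simp only [h1, mul_zero, Finset.sum_const_zero, add_zero]
      obtain ⟨a, ha, hb⟩ := G.sup x y
      have h2 : ∀ t, ∑ b, G.A b x y * F t b (i - j) = G.A a x y * F t a (i - j) := by
        intro t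
        rw [Finset.sum_eq_single a]
        · intro b _ hba
          rw [hb b hba, zero_mul]
        · intro h; exact absurd (mem_univ _) h
      simp only [h2]
      rw [← mul_add]
      exact ha.mul (hcov a _ (by omega) hle)
    · have h1 : ∀ t a, F t a (i - j) = 0 := fun t a => hF.zero t a _ (Or.inr (by omega))
      simp only [h1, mul_zero, Finset.sum_const_zero, zero_add]
      obtain ⟨a, ha, hb⟩ := G.sup y x
      have h2 : ∀ t, ∑ b, G.A b y x * F t b (j - i) = G.A a y x * F t a (j - i) := by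
        intro t
        rw [Finset.sum_eq_single a]
        · intro b _ hba
          rw [hb b hba, zero_mul]
        · intro h; exact absurd (mem_univ _) h
      simp only [h2]
      rw [← mul_add]
      exact ha.mul (hcov a _ (by omega) (by omega))

/-- amicable designs from a gadget and a family -/
theorem isAOD_of (h : IsPair G P Q d) (hF : Fam κ S q 1 F s)
    (hs : c * (s none + s (some 0)) = (Fintype.card ι : ℤ) * (q - 1)) :
    IsAOD ((d : ℤ) + c * s none) (Mx G P Q F none) (Mx G P Q F (some 0)) (Nx G F) where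
  PT := MxT h none
  QT := MxT h (some 0)
  NT := NxT
  P0 := Mx_self h hF none
  Q0 := Mx_self h hF (some 0)
  Ns := Nx_sg hF
  PQs := fun x y hxy => by
    obtain ⟨t, h1, h2⟩ := Mx_cover h hF x y hxy
    rcases t with _ | a
    · exact Or.inl ⟨h1, h2 (some 0) (by simp)⟩
    · have ha : a = 0 := Subsingleton.elim _ _
      subst ha
      exact Or.inr ⟨h2 none (by simp), h1⟩
  PP := by
    rw [Mxsq h hF none]
    rfl
  QQ := by
    rw [Mxsq h hF (some 0)]
    congr 2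
    rw [Fintype.card_prod, ZMod.card]
    simp only [w0, if_true]
    push_cast
    linear_combination hs
  NN := by
    rw [Nx_sq hF]
    congr 1
    rw [Fintype.card_prod, ZMod.card]
    push_cast
    linear_combination hs
  PQ := MxMx h hF 0
  NP := Nx_Mx h hF none
  NQ := Nx_Mx h hF (some 0)

end main

end Pool.Agent.Helper28H.AOD
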